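import Mathlib

/-!
# Project NE, jobs DER and ZER (author: helper350)
-/

set_option autoImplicit false

namespace Pool.Agent.Y350.NE.DerZer

open Polynomial

/-- DER (the text of `Pool.Agent.Y554.NE.S_DER`) -/
def S_DER : Prop := ∀ C : ℝ, 1 ≤ C → ∃ C' : ℝ, 1 ≤ C' ∧ ∀ f : ℂ → ℂ, Differentiable ℂ f →
    (∀ w, ‖f w‖ ≤ C * Real.exp (C * ‖w‖ ^ (8 / 3 : ℝ))) →
    ∀ k : ℕ, ‖iteratedDeriv k f 0‖ ≤ C' ^ (k + 1) * ((k.factorial : ℝ)) ^ (5 / 8 : ℝ)

/-- ZER (the text of `Pool.Agent.Y554.NE.S_ZER`) -/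
def S_ZER : Prop := ∀ C δ : ℝ, 1 ≤ C → 0 < δ → ∃ C' : ℝ, 1 ≤ C' ∧ ∀ f : Polynomial ℂ,
    (∀ w, ‖f.eval w‖ ≤ C * Real.exp (C * ‖w‖ ^ (8 / 3 : ℝ))) → δ ≤ ‖f.eval 0‖ →
    ∀ R : ℝ, 0 < R → ((f.roots.filter (fun w => ‖w‖ ≤ R)).card : ℝ) ≤ C' * R ^ (8 / 3 : ℝ)

theorem fact_le (k : ℕ) : k.factorial ≤ (k + 1) ^ k := by
  induction k with
  | zero => simp
  | succ k ih =>
    rw [Nat.factorial_succ]
    calc (k + 1) * k.factorial ≤ (k + 1) * (k + 1) ^ k := Nat.mul_le_mul_left _ ih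
      _ = (k + 1) ^ (k + 1) := by ring
      _ ≤ (k + 1 + 1) ^ (k + 1) := Nat.pow_le_pow_left (by omega) _

/-- DER. -/
theorem der : S_DER := by
  intro C hC
  have hC0 : 0 < C := by linarith
  refine ⟨C * Real.exp C, ?_, fun f hf hb k => ?_⟩
  · have := Real.one_le_exp hC0.le
    nlinarith
  have hk : (0 : ℝ) < (k : ℝ) + 1 := by positivity
  obtain ⟨r, hr⟩ : ∃ r : ℝ, r = ((k : ℝ) + 1) ^ (3 / 8 : ℝ) := ⟨_, rfl⟩
  have hr0 : 0 < r := by rw [hr]; exact Real.rpow_pos_of_pos hk _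
  have hr1 : r ^ (8 / 3 : ℝ) = (k : ℝ) + 1 := by
    rw [hr, ← Real.rpow_mul hk.le]
    norm_num
  have h1 := Complex.norm_iteratedDeriv_le_of_forall_mem_sphere_norm_le (n := k) hr0
    (hf.diffContOnCl (s := Metric.ball (0 : ℂ) r))
    (C := C * Real.exp (C * ((k : ℝ) + 1))) (fun z hz => by
      have hz' : ‖z‖ = r := by simpa using hz
      have := hb z
      rwa [hz', hr1] at this)
  refine h1.trans ?_
  have h2 : ((k.factorial : ℝ)) ^ (3 / 8 : ℝ) ≤ r ^ k := by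
    have e : r ^ k = (((k : ℝ) + 1) ^ k) ^ (3 / 8 : ℝ) := by
      rw [hr, ← Real.rpow_natCast, ← Real.rpow_mul hk.le, mul_comm, Real.rpow_mul hk.le,
        Real.rpow_natCast]
    rw [e]
    refine Real.rpow_le_rpow (by positivity) ?_ (by norm_num)
    exact_mod_cast fact_le k
  have hf0 : (0 : ℝ) < (k.factorial : ℝ) := by exact_mod_cast k.factorial_pos
  have h3 : (k.factorial : ℝ) = (k.factorial : ℝ) ^ (5 / 8 : ℝ) * (k.factorial : ℝ) ^ (3 / 8 : ℝ) := by
    rw [← Real.rpow_add hf0]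
    norm_num
  rw [div_le_iff₀ (pow_pos hr0 k)]
  have h4 : (C * Real.exp C) ^ (k + 1) = C ^ (k + 1) * Real.exp (C * ((k : ℝ) + 1)) := by
    rw [mul_pow, ← Real.exp_nat_mul]
    congr 2
    push_cast
    ring
  rw [h4]
  have h5 : C ≤ C ^ (k + 1) := le_self_pow₀ hC (by omega)
  calc (k.factorial : ℝ) * (C * Real.exp (C * ((k : ℝ) + 1)))
      = (C * Real.exp (C * ((k : ℝ) + 1))) * (k.factorial : ℝ) ^ (5 / 8 : ℝ) *
        (k.factorial : ℝ) ^ (3 / 8 : ℝ) := by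
        conv_lhs => rw [h3]
        ring
    _ ≤ (C ^ (k + 1) * Real.exp (C * ((k : ℝ) + 1))) * (k.factorial : ℝ) ^ (5 / 8 : ℝ) *
        r ^ k := by
        have h6 : 0 ≤ (k.factorial : ℝ) ^ (5 / 8 : ℝ) := Real.rpow_nonneg hf0.le _
        have h7 : 0 ≤ (k.factorial : ℝ) ^ (3 / 8 : ℝ) := Real.rpow_nonneg hf0.le _
        gcongr

theorem blaschke (ρ R B : ℝ) (hR : 0 < R) (hρ : R ≤ ρ) (s : Multiset ℂ) :
    (∀ w ∈ s, ‖w‖ ≤ R) → ∀ g : ℂ[X],
    (∀ z : ℂ, ‖z‖ = ρ → ‖((s.map fun a => X - C a).prod * g).eval z‖ ≤ B) →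
    ‖((s.map fun a => X - C a).prod * g).eval 0‖ * ρ ^ s.card ≤ B * R ^ s.card := by
  have hρ0 : 0 < ρ := hR.trans_le hρ
  induction s using Multiset.induction_on with
  | empty =>
    intro _ g hg
    simp only [Multiset.map_zero, Multiset.prod_zero, one_mul, Multiset.card_zero, pow_zero,
      mul_one] at hg ⊢
    refine Complex.norm_le_of_forall_mem_frontier_norm_le (f := fun z => g.eval z)
      (U := Metric.ball (0 : ℂ) ρ) Metric.isBounded_ball
      (g.differentiable.diffContOnCl) ?_ (subset_closure (Metric.mem_ball_self hρ0))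
    intro z hz
    rw [frontier_ball _ hρ0.ne'] at hz
    exact hg z (by simpa using hz)
  | cons w s ih =>
    intro hs g hg
    have hw : ‖w‖ ≤ R := hs w (Multiset.mem_cons_self w s)
    have h1 := ih (fun v hv => hs v (Multiset.mem_cons_of_mem hv))
      ((C (ρ : ℂ) - C ((starRingEnd ℂ) w / ρ) * X) * g) (fun z hz => by
        have h2 := hg z hz
        rw [Multiset.map_cons, Multiset.prod_cons, mul_assoc, eval_mul, norm_mul] at h2
        have e1 : ‖(X - C w).eval z‖ = ‖(C (ρ : ℂ) - C ((starRingEnd ℂ) w / ρ) * X).eval z‖ := by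
          simp only [eval_sub, eval_X, eval_C, eval_mul]
          have h3 : (ρ : ℂ) * ((ρ : ℂ) - (starRingEnd ℂ) w / ρ * z) =
              z * (starRingEnd ℂ) (z - w) := by
            have h4 : z * (starRingEnd ℂ) z = (ρ : ℂ) ^ 2 := by
              rw [Complex.mul_conj, Complex.normSq_eq_norm_sq, hz]
              push_cast
              rfl
            have h5 : (ρ : ℂ) ≠ 0 := by exact_mod_cast hρ0.ne'
            rw [map_sub, mul_sub z, h4]
            field_simp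
          have h6 := congrArg norm h3
          rw [norm_mul, norm_mul, RCLike.norm_conj, hz, Complex.norm_real,
            Real.norm_of_nonneg hρ0.le] at h6
          exact (mul_left_cancel₀ hρ0.ne' h6).symm
        rw [e1] at h2
        calc ‖((s.map fun a => X - C a).prod *
              ((C (ρ : ℂ) - C ((starRingEnd ℂ) w / ρ) * X) * g)).eval z‖
            = ‖(C (ρ : ℂ) - C ((starRingEnd ℂ) w / ρ) * X).eval z‖ *
              ‖((s.map fun a => X - C a).prod * g).eval z‖ := by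
              rw [eval_mul, eval_mul, eval_mul, norm_mul, norm_mul, norm_mul]
              ring
          _ ≤ B := h2)
    have e2 : ‖((s.map fun a => X - C a).prod *
        ((C (ρ : ℂ) - C ((starRingEnd ℂ) w / ρ) * X) * g)).eval 0‖ =
        ρ * ‖((s.map fun a => X - C a).prod * g).eval 0‖ := by
      rw [eval_mul, eval_mul, eval_mul, norm_mul, norm_mul, norm_mul]
      simp only [eval_sub, eval_C, eval_mul, eval_X, mul_zero, sub_zero, Complex.norm_real,
        Real.norm_of_nonneg hρ0.le]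
      ring
    rw [e2] at h1
    rw [Multiset.map_cons, Multiset.prod_cons, mul_assoc, eval_mul, norm_mul, Multiset.card_cons]
    simp only [eval_sub, eval_X, eval_C, zero_sub, norm_neg]
    calc ‖w‖ * ‖((s.map fun a => X - C a).prod * g).eval 0‖ * ρ ^ (s.card + 1)
        ≤ R * ‖((s.map fun a => X - C a).prod * g).eval 0‖ * ρ ^ (s.card + 1) := by gcongr
      _ = R * (ρ * ‖((s.map fun a => X - C a).prod * g).eval 0‖ * ρ ^ s.card) := by ring
      _ ≤ R * (B * R ^ s.card) := mul_le_mul_of_nonneg_left h1 hR.le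
      _ = B * R ^ (s.card + 1) := by ring

theorem count (f : ℂ[X]) (hf : f ≠ 0) (ρ R B : ℝ) (hR : 0 < R) (hρ : R ≤ ρ)
    (hB : ∀ z : ℂ, ‖z‖ = ρ → ‖f.eval z‖ ≤ B) :
    ‖f.eval 0‖ * ρ ^ (f.roots.filter (fun w => ‖w‖ ≤ R)).card ≤
      B * R ^ (f.roots.filter (fun w => ‖w‖ ≤ R)).card := by
  classical
  have hle : f.roots.filter (fun w => ‖w‖ ≤ R) ≤ f.roots := Multiset.filter_le _ _
  obtain ⟨g, hg⟩ := (Multiset.prod_X_sub_C_dvd_iff_le_roots hf _).2 hle
  have h := blaschke ρ R B hR hρ (f.roots.filter (fun w => ‖w‖ ≤ R))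
    (fun w hw => (Multiset.mem_filter.1 hw).2) g (by rw [← hg]; exact hB)
  rwa [← hg] at h

/-- ZER. -/
theorem zer : S_ZER := by
  intro C δ hC hδ
  have hC0 : 0 < C := by linarith
  have hE : 0 < C * Real.exp C := mul_pos hC0 (Real.exp_pos _)
  obtain ⟨c, hc⟩ : ∃ c : ℝ, c = min 1 (δ / (C * Real.exp C)) := ⟨_, rfl⟩
  have hc0 : 0 < c := by rw [hc]; exact lt_min one_pos (div_pos hδ hE)
  have hc1 : c ≤ 1 := by rw [hc]; exact min_le_left _ _
  have hc2 : c ≤ δ / (C * Real.exp C) := by rw [hc]; exact min_le_right _ _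
  have hc8 : 0 < c ^ (8 / 3 : ℝ) := Real.rpow_pos_of_pos hc0 _
  refine ⟨|Real.log (C / δ)| / c ^ (8 / 3 : ℝ) + C * 3 ^ (8 / 3 : ℝ) + 1, ?_,
    fun f hf h0 R hR => ?_⟩
  · have : 0 ≤ |Real.log (C / δ)| / c ^ (8 / 3 : ℝ) + C * 3 ^ (8 / 3 : ℝ) := by positivity
    linarith
  have hf0 : f ≠ 0 := by
    rintro rfl
    simp only [eval_zero, norm_zero] at h0
    linarith
  obtain ⟨N, hN⟩ : ∃ N : ℕ, N = (f.roots.filter (fun w => ‖w‖ ≤ R)).card := ⟨_, rfl⟩
  rw [← hN]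
  have hR8 : 0 < R ^ (8 / 3 : ℝ) := Real.rpow_pos_of_pos hR _
  rcases lt_or_ge R c with hRc | hRc
  · -- no root
    have hR1 : R ≤ 1 := hRc.le.trans hc1
    have h := count f hf0 1 R (C * Real.exp C) hR hR1 (fun z hz => by
      have := hf z
      rwa [hz, Real.one_rpow, mul_one] at this)
    rw [← hN, one_pow, mul_one] at h
    have hN0 : N = 0 := by
      by_contra hne
      have h1 : R ^ N ≤ R := pow_le_of_le_one hR.le hR1 hne
      have h2 : C * Real.exp C * R ^ N < δ := by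
        have h3 : R < δ / (C * Real.exp C) := hRc.trans_le hc2
        rw [lt_div_iff₀ hE] at h3
        nlinarith
      linarith
    rw [hN0]
    push_cast
    positivity
  · have h := count f hf0 (3 * R) R (C * Real.exp (C * (3 * R) ^ (8 / 3 : ℝ))) hR (by linarith)
      (fun z hz => by
        have := hf z
        rwa [hz] at this)
    rw [← hN, mul_pow, ← mul_assoc] at h
    have h1 : ‖f.eval 0‖ * 3 ^ N ≤ C * Real.exp (C * (3 * R) ^ (8 / 3 : ℝ)) :=
      le_of_mul_le_mul_right h (pow_pos hR N)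
    have h2 : δ * 3 ^ N ≤ C * Real.exp (C * (3 * R) ^ (8 / 3 : ℝ)) :=
      (mul_le_mul_of_nonneg_right h0 (by positivity)).trans h1
    have h3 : (3 : ℝ) ^ N ≤ C / δ * Real.exp (C * (3 * R) ^ (8 / 3 : ℝ)) := by
      rw [div_mul_eq_mul_div, le_div_iff₀ hδ]
      linarith
    have h4 : (N : ℝ) * Real.log 3 ≤ Real.log (C / δ) + C * (3 * R) ^ (8 / 3 : ℝ) := by
      have := Real.log_le_log (by positivity) h3
      rwa [Real.log_pow, Real.log_mul (by positivity) (Real.exp_pos _).ne', Real.log_exp] at this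
    have h5 : (1 : ℝ) ≤ Real.log 3 := by
      rw [Real.le_log_iff_exp_le (by norm_num)]
      exact Real.exp_one_lt_d9.le.trans (by norm_num)
    have h6 : (N : ℝ) ≤ Real.log (C / δ) + C * (3 * R) ^ (8 / 3 : ℝ) := by
      have : (N : ℝ) ≤ N * Real.log 3 := le_mul_of_one_le_right (Nat.cast_nonneg _) h5
      linarith
    have h7 : c ^ (8 / 3 : ℝ) ≤ R ^ (8 / 3 : ℝ) := Real.rpow_le_rpow hc0.le hRc (by norm_num)
    have h8 : Real.log (C / δ) ≤ |Real.log (C / δ)| / c ^ (8 / 3 : ℝ) * R ^ (8 / 3 : ℝ) := by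
      calc Real.log (C / δ) ≤ |Real.log (C / δ)| := le_abs_self _
        _ = |Real.log (C / δ)| / c ^ (8 / 3 : ℝ) * c ^ (8 / 3 : ℝ) := by field_simp
        _ ≤ |Real.log (C / δ)| / c ^ (8 / 3 : ℝ) * R ^ (8 / 3 : ℝ) := by gcongr
    rw [Real.mul_rpow (by norm_num) hR.le] at h6
    calc (N : ℝ) ≤ Real.log (C / δ) + C * (3 ^ (8 / 3 : ℝ) * R ^ (8 / 3 : ℝ)) := h6
      _ ≤ |Real.log (C / δ)| / c ^ (8 / 3 : ℝ) * R ^ (8 / 3 : ℝ) +
          C * (3 ^ (8 / 3 : ℝ) * R ^ (8 / 3 : ℝ)) := by linarith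
      _ ≤ (|Real.log (C / δ)| / c ^ (8 / 3 : ℝ) + C * 3 ^ (8 / 3 : ℝ) + 1) * R ^ (8 / 3 : ℝ) := by
        nlinarith

end Pool.Agent.Y350.NE.DerZer
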