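import Pool.Agent.Y350.NE.TayA
import Pool.Agent.Y554.NE.Stm

/-!
# Project NE, job TAY: Taylor expansion at `1 / 2` (author: helper350)
-/

set_option autoImplicit false

namespace Pool.Agent.Y350.NE.Tay

open H974 H12S H389NS Finset Pool.Agent.Y554.SN Pool.Agent.Y554.NE

/-- TAY. -/
theorem tay : S_TAY := by
  intro n z
  refine Pool.Agent.Y350.NE.TayA.tay_abs (boxE n) (fC (Lf n) (Rt n))
    (fun e F => Pv (Lf n) (Rt n) e (↑F : Set Edg)) ?_ ?_ z
  · intro F
    unfold fC
    rw [abs_of_nonneg (ind_nonneg _)]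
    exact ind_le_one _
  · intro e F h
    unfold fC
    refine ind_congr ⟨fun h1 => ?_, fun h1 => ?_⟩
    · by_contra h2
      refine h ⟨?_, ?_⟩
      · rwa [← Finset.coe_insert]
      · rwa [← Finset.coe_erase]
    · refine Cn_mono ?_ h1
      exact_mod_cast (Finset.erase_subset e F).trans (Finset.subset_insert e F)

end Pool.Agent.Y350.NE.Tay
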