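import Pool.Agent.H974R2.Basic

/-!
# Project NE, job TAY: Taylor expansion at `1 / 2`, abstract form (author: helper350)
-/

set_option autoImplicit false

namespace Pool.Agent.Y350.NE.TayA

open Finset H974

variable {E : Type*} [DecidableEq E]

theorem Pr_half (V : Finset E) (A : Finset E → Prop) [DecidablePred A] :
    Pr (fun _ : E => (1 / 2 : ℝ)) V A = (1 / 2) ^ V.card * ((V.powerset.filter A).card : ℝ) := by
  unfold Pr Ex
  have h : ∀ F ∈ V.powerset, (∏ _e ∈ F, (1 / 2 : ℝ)) * (∏ _e ∈ V \ F, (1 - 1 / 2 : ℝ)) * ind (A F) =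
      (1 / 2) ^ V.card * (if A F then 1 else 0) := by
    intro F hF
    have hFV := Finset.mem_powerset.1 hF
    rw [Finset.prod_const, Finset.prod_const]
    have e1 : (1 - 1 / 2 : ℝ) = 1 / 2 := by norm_num
    rw [e1, ← pow_add, Finset.card_sdiff_of_subset hFV,
      Nat.add_sub_cancel' (Finset.card_le_card hFV)]
    congr 1
    by_cases h : A F
    · rw [ind_of h, if_pos h]
    · rw [ind_not_of h, if_neg h]
  rw [Finset.sum_congr rfl h, ← Finset.mul_sum, Finset.sum_boole]

theorem sign_pair (S F : Finset E) (e : E) (he : e ∈ S) (hF : e ∈ F) (a : ℝ) :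
    (-1 : ℝ) ^ (S \ F).card * a + (-1 : ℝ) ^ (S \ F.erase e).card * a = 0 := by
  have h : (S \ F.erase e).card = (S \ F).card + 1 := by
    have e1 : S \ F.erase e = insert e (S \ F) := by
      ext x
      simp only [Finset.mem_sdiff, Finset.mem_erase, Finset.mem_insert]
      by_cases hx : x = e
      · subst hx; simp [he]
      · simp [hx]
    rw [e1, Finset.card_insert_of_notMem (by simp [hF])]
  rw [h, pow_succ]
  ring

/-- The sign sum is a sum over the configurations for which all edges of `S` are pivotal. -/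
theorem sign_sum [Nonempty E] (V S : Finset E) (hSV : S ⊆ V) (f : Finset E → ℝ)
    (Pv : E → Finset E → Prop) (h1 : ∀ F, |f F| ≤ 1)
    (h2 : ∀ e F, ¬ Pv e F → f (insert e F) = f (F.erase e))
    [DecidablePred fun F : Finset E => ∀ e ∈ S, ∃ T ⊆ S, Pv e ((F \ S) ∪ T)] :
    |∑ F ∈ V.powerset, (-1 : ℝ) ^ (S \ F).card * f F| ≤
      ((V.powerset.filter fun F => ∀ e ∈ S, ∃ T ⊆ S, Pv e ((F \ S) ∪ T)).card : ℝ) := by
  classical
  rw [← Finset.sum_filter_add_sum_filter_not V.powerset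
    (fun F => ∀ e ∈ S, ∃ T ⊆ S, Pv e ((F \ S) ∪ T))]
  have key : ∑ F ∈ V.powerset.filter (fun F => ¬ ∀ e ∈ S, ∃ T ⊆ S, Pv e ((F \ S) ∪ T)),
      (-1 : ℝ) ^ (S \ F).card * f F = 0 := by
    have hch : ∀ G : Finset E, ∃ e : E, (¬ ∀ e ∈ S, ∃ T ⊆ S, Pv e (G ∪ T)) →
        (e ∈ S ∧ ∀ T ⊆ S, ¬ Pv e (G ∪ T)) := by
      intro G
      by_cases h : ∀ e ∈ S, ∃ T ⊆ S, Pv e (G ∪ T)
      · exact ⟨Classical.arbitrary E, fun h' => absurd h h'⟩
      · push Not at h
        obtain ⟨e, he, h3⟩ := h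
        exact ⟨e, fun _ => ⟨he, h3⟩⟩
    choose c hc using hch
    let g : Finset E → Finset E := fun F =>
      if c (F \ S) ∈ F then F.erase (c (F \ S)) else insert (c (F \ S)) F
    have hgS : ∀ F, c (F \ S) ∈ S → g F \ S = F \ S := by
      intro F hF
      simp only [g]
      split_ifs
      · ext x
        simp only [Finset.mem_sdiff, Finset.mem_erase]
        constructor
        · rintro ⟨⟨_, h3⟩, h4⟩; exact ⟨h3, h4⟩
        · rintro ⟨h3, h4⟩
          exact ⟨⟨fun h => h4 (h ▸ hF), h3⟩, h4⟩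
      · ext x
        simp only [Finset.mem_sdiff, Finset.mem_insert]
        constructor
        · rintro ⟨h3 | h3, h4⟩
          · exact absurd (h3 ▸ hF) h4
          · exact ⟨h3, h4⟩
        · rintro ⟨h3, h4⟩; exact ⟨Or.inr h3, h4⟩
    have hmem : ∀ F, F ∈ V.powerset.filter
        (fun F => ¬ ∀ e ∈ S, ∃ T ⊆ S, Pv e ((F \ S) ∪ T)) →
        F ⊆ V ∧ c (F \ S) ∈ S ∧ f (insert (c (F \ S)) F) = f (F.erase (c (F \ S))) := by
      intro F hF
      obtain ⟨hF1, hF2⟩ := Finset.mem_filter.1 hF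
      obtain ⟨h3, h4⟩ := hc (F \ S) hF2
      refine ⟨Finset.mem_powerset.1 hF1, h3, h2 _ _ ?_⟩
      have h5 := h4 (F ∩ S) Finset.inter_subset_right
      rwa [Finset.sdiff_union_inter] at h5
    refine Finset.sum_involution (fun F _ => g F) ?_ ?_ ?_ ?_
    · intro F hF
      obtain ⟨-, h3, h4⟩ := hmem F hF
      simp only [g]
      split_ifs with h5
      · rw [Finset.insert_eq_of_mem h5] at h4
        rw [← h4]
        exact sign_pair S F _ h3 h5 _
      · rw [Finset.erase_eq_of_notMem h5] at h4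
        rw [h4]
        have h6 := sign_pair S (insert (c (F \ S)) F) _ h3 (Finset.mem_insert_self _ _) (f F)
        rw [Finset.erase_insert h5] at h6
        linarith
    · intro F hF _ h
      simp only [g] at h
      split_ifs at h with h5
      · rw [Finset.erase_eq_self] at h
        exact h h5
      · rw [Finset.insert_eq_self] at h
        exact h5 h
    · intro F hF
      obtain ⟨h3, h4, -⟩ := hmem F hF
      have h6 := (Finset.mem_filter.1 hF).2
      refine Finset.mem_filter.2 ⟨Finset.mem_powerset.2 ?_, ?_⟩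
      · simp only [g]
        split_ifs
        · exact (Finset.erase_subset _ _).trans h3
        · exact Finset.insert_subset (hSV h4) h3
      · rw [hgS F h4]
        exact h6
    · intro F hF
      obtain ⟨h3, h4, -⟩ := hmem F hF
      have h6 : g (g F) = if c (F \ S) ∈ g F then (g F).erase (c (F \ S)) else
          insert (c (F \ S)) (g F) := by
        show (if c (g F \ S) ∈ g F then (g F).erase (c (g F \ S)) else
          insert (c (g F \ S)) (g F)) = _
        rw [hgS F h4]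
      show g (g F) = F
      rw [h6]
      by_cases h5 : c (F \ S) ∈ F
      · have h7 : g F = F.erase (c (F \ S)) := if_pos h5
        rw [h7, if_neg (Finset.notMem_erase _ _), Finset.insert_erase h5]
      · have h7 : g F = insert (c (F \ S)) F := if_neg h5
        rw [h7, if_pos (Finset.mem_insert_self _ _), Finset.erase_insert h5]
  rw [key, add_zero]
  calc |∑ F ∈ V.powerset.filter (fun F => ∀ e ∈ S, ∃ T ⊆ S, Pv e ((F \ S) ∪ T)),
        (-1 : ℝ) ^ (S \ F).card * f F|
      ≤ ∑ F ∈ V.powerset.filter (fun F => ∀ e ∈ S, ∃ T ⊆ S, Pv e ((F \ S) ∪ T)),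
        |(-1 : ℝ) ^ (S \ F).card * f F| := Finset.abs_sum_le_sum_abs _ _
    _ ≤ ∑ F ∈ V.powerset.filter (fun F => ∀ e ∈ S, ∃ T ⊆ S, Pv e ((F \ S) ∪ T)), (1 : ℝ) := by
        refine Finset.sum_le_sum fun F _ => ?_
        rw [abs_mul, abs_pow, abs_neg, abs_one, one_pow, one_mul]
        exact h1 F
    _ = _ := by rw [Finset.sum_const, nsmul_eq_mul, mul_one]

theorem expand (V F : Finset E) (hF : F ⊆ V) (z : ℂ) :
    (1 / 2 + z) ^ F.card * (1 - (1 / 2 + z)) ^ (V.card - F.card) =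
      ∑ S ∈ V.powerset, z ^ S.card * (1 / 2) ^ (V \ S).card * (-1) ^ (S \ F).card := by
  classical
  have h1 : (1 / 2 + z) ^ F.card * (1 - (1 / 2 + z)) ^ (V.card - F.card) =
      ∏ e ∈ V, ((if e ∈ F then z else -z) + 1 / 2) := by
    rw [← Finset.prod_sdiff hF, mul_comm]
    congr 1
    · rw [← Finset.card_sdiff_of_subset hF, ← Finset.prod_const]
      refine Finset.prod_congr rfl fun e he => ?_
      rw [if_neg (Finset.mem_sdiff.1 he).2]
      ring
    · rw [← Finset.prod_const]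
      refine Finset.prod_congr rfl fun e he => ?_
      rw [if_pos he]
      ring
  rw [h1, Finset.prod_add]
  refine Finset.sum_congr rfl fun S hS => ?_
  rw [Finset.prod_const]
  have h2 : ∏ e ∈ S, (if e ∈ F then z else -z) = z ^ S.card * (-1) ^ (S \ F).card := by
    have h3 : ∀ e ∈ S, (if e ∈ F then z else -z) = z * (if e ∈ S \ F then -1 else 1) := by
      intro e he
      by_cases h : e ∈ F
      · simp [h]
      · simp [h, he]
    rw [Finset.prod_congr rfl h3, Finset.prod_mul_distrib, Finset.prod_const]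
    congr 1
    rw [Finset.prod_ite_mem, Finset.inter_eq_right.2 Finset.sdiff_subset, Finset.prod_const]
  rw [h2]
  ring

/-- TAY, abstract form. -/
theorem tay_abs [Nonempty E] (V : Finset E) (f : Finset E → ℝ) (Pv : E → Finset E → Prop)
    (h1 : ∀ F, |f F| ≤ 1) (h2 : ∀ e F, ¬ Pv e F → f (insert e F) = f (F.erase e)) (z : ℂ) :
    ‖∑ F ∈ V.powerset, ((f F : ℝ) : ℂ) * (1 / 2 + z) ^ F.card *
      (1 - (1 / 2 + z)) ^ (V.card - F.card)‖ ≤
      ∑ S ∈ V.powerset, (2 * ‖z‖) ^ S.card *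
        Pr (fun _ : E => (1 / 2 : ℝ)) V (fun F => ∀ e ∈ S, ∃ T ⊆ S, Pv e ((F \ S) ∪ T)) := by
  classical
  have e1 : ∑ F ∈ V.powerset, ((f F : ℝ) : ℂ) * (1 / 2 + z) ^ F.card *
      (1 - (1 / 2 + z)) ^ (V.card - F.card) =
      ∑ S ∈ V.powerset, z ^ S.card * (1 / 2) ^ (V \ S).card *
        ((∑ F ∈ V.powerset, (-1 : ℝ) ^ (S \ F).card * f F : ℝ) : ℂ) := by
    have e2 : ∀ F ∈ V.powerset, ((f F : ℝ) : ℂ) * (1 / 2 + z) ^ F.card *
        (1 - (1 / 2 + z)) ^ (V.card - F.card) =
        ∑ S ∈ V.powerset, z ^ S.card * (1 / 2) ^ (V \ S).card *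
          (((-1 : ℝ) ^ (S \ F).card * f F : ℝ) : ℂ) := by
      intro F hF
      rw [mul_assoc, expand V F (Finset.mem_powerset.1 hF) z, Finset.mul_sum]
      refine Finset.sum_congr rfl fun S _ => ?_
      push_cast
      ring
    rw [Finset.sum_congr rfl e2, Finset.sum_comm]
    refine Finset.sum_congr rfl fun S _ => ?_
    rw [← Finset.mul_sum, Complex.ofReal_sum]
  rw [e1]
  refine (norm_sum_le _ _).trans (Finset.sum_le_sum fun S hS => ?_)
  have hSV := Finset.mem_powerset.1 hS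
  rw [Pr_half, norm_mul, norm_mul, norm_pow, norm_pow, Complex.norm_real, Real.norm_eq_abs]
  have e3 : ‖(1 / 2 : ℂ)‖ = 1 / 2 := by norm_num
  rw [e3]
  have e4 : (2 * ‖z‖) ^ S.card * ((1 / 2 : ℝ) ^ V.card *
      ((V.powerset.filter fun F => ∀ e ∈ S, ∃ T ⊆ S, Pv e ((F \ S) ∪ T)).card : ℝ)) =
      ‖z‖ ^ S.card * (1 / 2) ^ (V \ S).card *
      ((V.powerset.filter fun F => ∀ e ∈ S, ∃ T ⊆ S, Pv e ((F \ S) ∪ T)).card : ℝ) := by
    have e5 : V.card = S.card + (V \ S).card := by
      rw [Finset.card_sdiff_of_subset hSV, Nat.add_sub_cancel' (Finset.card_le_card hSV)]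
    have e6 : (2 : ℝ) ^ S.card * (1 / 2) ^ S.card = 1 := by
      rw [← mul_pow]
      norm_num
    rw [e5, pow_add, mul_pow]
    linear_combination (‖z‖ ^ S.card * (1 / 2) ^ (V \ S).card *
      ((V.powerset.filter fun F => ∀ e ∈ S, ∃ T ⊆ S, Pv e ((F \ S) ∪ T)).card : ℝ)) * e6
  rw [e4]
  exact mul_le_mul_of_nonneg_left (sign_sum V S hSV f Pv h1 h2) (by positivity)

end Pool.Agent.Y350.NE.TayA
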